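import Pool.Agent.H90.HW.Stmts

/-! # HW, module AB: from projective schemes to linear sections of Segre varieties -/

namespace Pool.Agent.H90.HW

open Pool.Agent.H73.Zeta
open scoped LinearAlgebra.Projectivization

namespace AB

/-! ### Closed classes -/

section closed

variable {C : Counts → Prop} (hC : Closed C)

include hC

theorem sub {N M : Counts} (h : C N) (h' : C M) : C (fun p k => N p k - M p k) :=
  hC.congr (fun _ _ _ => (sub_eq_add_neg _ _).symm) (hC.add h (hC.neg h'))

theorem powShift {N : Counts} (h : C N) (j : ℕ) : C (fun p k => ((p : ℤ) ^ k) ^ j * N p k) := by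
  induction j with
  | zero => exact hC.congr (fun p k _ => by rw [pow_zero, one_mul]) h
  | succ j ih => exact hC.congr (fun p k _ => by ring) (hC.shift ih)

theorem powUnshift {N : Counts} (j : ℕ) (h : C (fun p k => ((p : ℤ) ^ k) ^ j * N p k)) : C N := by
  induction j with
  | zero => exact hC.congr (fun p k _ => by rw [pow_zero, one_mul]) h
  | succ j ih => exact ih (hC.unshift (hC.congr (fun p k _ => by ring) h))

theorem mulSub {N : Counts} (h : C N) : C (fun p k => ((p : ℤ) ^ k - 1) * N p k) :=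
  hC.congr (fun p k _ => by ring) (sub hC (hC.shift h) h)

theorem sum {ι : Type} (s : Finset ι) (N : ι → Counts) (h0 : C (fun _ _ => 0))
    (h : ∀ i ∈ s, C (N i)) : C (fun p k => ∑ i ∈ s, N i p k) := by
  classical
  induction s using Finset.induction_on with
  | empty => exact hC.congr (fun p k _ => by simp) h0
  | insert i s hi ih =>
    refine hC.congr (fun p k _ => by rw [Finset.sum_insert hi])
      (hC.add (h i (Finset.mem_insert_self _ _))
        (ih fun j hj => h j (Finset.mem_insert_of_mem hj)))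

end closed

/-! ### Counting -/

theorem cnt_ne {α : Type*} [Finite α] (P : α → Prop) (x₀ : α) (h : P x₀) :
    cnt P = 1 + cnt (fun v => v ≠ x₀ ∧ P v) := by
  classical
  have := Fintype.ofFinite α
  rw [cnt_sum, cnt_sum]
  have h1 : (1 : ℤ) = ∑ x : α, if x = x₀ then (1 : ℤ) else 0 := by simp
  rw [h1, ← Finset.sum_add_distrib]
  refine Finset.sum_congr rfl fun x _ => ?_
  by_cases hx : x = x₀
  · subst hx
    simp [h]
  · simp [hx]

theorem geom (q : ℤ) (b : ℕ) : ∀ s, s ≤ b →
    q ^ (b - s) = 1 + (q - 1) * ∑ r ∈ Finset.range b, q ^ (b - 1 - r) * (if s ≤ r then 1 else 0)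
      := by
  induction b with
  | zero => intro s hs; simp
  | succ b ih =>
    intro s hs
    rw [Finset.sum_range_succ]
    have h1 : ∀ r ∈ Finset.range b, q ^ (b + 1 - 1 - r) * (if s ≤ r then (1 : ℤ) else 0) =
        q * (q ^ (b - 1 - r) * (if s ≤ r then 1 else 0)) := by
      intro r hr
      rw [Finset.mem_range] at hr
      have : b + 1 - 1 - r = (b - 1 - r) + 1 := by omega
      rw [this, pow_succ]
      ring
    rw [Finset.sum_congr rfl h1, ← Finset.mul_sum]
    have h2 : b + 1 - 1 - b = 0 := by omega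
    rw [h2, pow_zero, one_mul]
    by_cases hsb : s ≤ b
    · rw [if_pos hsb]
      have h3 := ih s hsb
      have h4 : b + 1 - s = (b - s) + 1 := by omega
      rw [h4, pow_succ, h3]
      ring
    · rw [if_neg hsb]
      have h5 : b + 1 - s = 0 := by omega
      have h6 : ∑ r ∈ Finset.range b, q ^ (b - 1 - r) * (if s ≤ r then (1 : ℤ) else 0) = 0 := by
        refine Finset.sum_eq_zero fun r hr => ?_
        rw [Finset.mem_range] at hr
        rw [if_neg (by omega), mul_zero]
      rw [h5, h6]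
      ring

/-! ### The matrix of linear forms -/

variable {m a b : ℕ} (T : Fin (m + 1) → Fin a → Fin b → ℤ)

/-- The matrix of linear forms. -/
noncomputable def mat : Matrix (Fin a) (Fin b) (MvPolynomial (Fin (m + 1)) ℤ) :=
  Matrix.of fun j l => ∑ i, MvPolynomial.C (T i j l) * MvPolynomial.X i

/-- Its value at a point. -/
def matAt {K : Type} [Field K] (x : Fin (m + 1) → K) : Matrix (Fin a) (Fin b) K :=
  Matrix.of fun j l => ∑ i, (T i j l : K) * x i

open scoped Classical in
/-- The minors of size `r + 1`. -/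
noncomputable def minors (r : ℕ) : Finset (MvPolynomial (Fin (m + 1)) ℤ) :=
  Finset.univ.image (fun fg : (Fin (r + 1) → Fin a) × (Fin (r + 1) → Fin b) =>
    ((mat T).submatrix fg.1 fg.2).det)

theorem mem_minors (r : ℕ) (f : MvPolynomial (Fin (m + 1)) ℤ) : f ∈ minors T r ↔
    ∃ fg : (Fin (r + 1) → Fin a) × (Fin (r + 1) → Fin b),
      ((mat T).submatrix fg.1 fg.2).det = f := by
  simp [minors]

theorem minors_hom (r : ℕ) : ∀ f ∈ minors T r, ∃ d : ℕ, f.IsHomogeneous d := by
  intro f hf
  obtain ⟨fg, rfl⟩ := (mem_minors T r f).1 hf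
  refine ⟨r + 1, ?_⟩
  rw [Matrix.det_apply']
  refine MvPolynomial.IsHomogeneous.sum _ _ _ fun σ _ => ?_
  have h1 : (∏ i, ((mat T).submatrix fg.1 fg.2) (σ i) i).IsHomogeneous
      (∑ _i : Fin (r + 1), 1) := by
    refine MvPolynomial.IsHomogeneous.prod _ _ _ fun i _ => ?_
    simp only [Matrix.submatrix_apply, mat, Matrix.of_apply]
    exact MvPolynomial.IsHomogeneous.sum _ _ _ fun j _ =>
      MvPolynomial.isHomogeneous_C_mul_X _ _
  have h2 : (((Equiv.Perm.sign σ : ℤ) : MvPolynomial (Fin (m + 1)) ℤ)).IsHomogeneous 0 := by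
    have : (((Equiv.Perm.sign σ : ℤ) : MvPolynomial (Fin (m + 1)) ℤ)) =
        MvPolynomial.C (Equiv.Perm.sign σ : ℤ) := by simp
    rw [this]
    exact MvPolynomial.isHomogeneous_C _ _
  have h3 := h2.mul h1
  simpa using h3

theorem aeval_det {K : Type} [Field K] (x : Fin (m + 1) → K) {r : ℕ} (f : Fin (r + 1) → Fin a)
    (g : Fin (r + 1) → Fin b) :
    MvPolynomial.aeval x ((mat T).submatrix f g).det = ((matAt T x).submatrix f g).det := by
  rw [AlgHom.map_det]
  congr 1
  ext i j
  simp [mat, matAt]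

theorem minors_iff (h3 : SMinor) {K : Type} [Field K] (x : Fin (m + 1) → K) (r : ℕ) :
    (∀ f ∈ minors T r, MvPolynomial.aeval x f = 0) ↔ (matAt T x).rank ≤ r := by
  rw [h3]
  constructor
  · intro h f g
    rw [← aeval_det]
    exact h _ ((mem_minors T r _).2 ⟨(f, g), rfl⟩)
  · intro h f hf
    obtain ⟨fg, rfl⟩ := (mem_minors T r f).1 hf
    rw [aeval_det]
    exact h _ _

theorem matAt_zero {K : Type} [Field K] : matAt T (0 : Fin (m + 1) → K) = 0 := by
  ext j l
  simp [matAt]

/-- Number of points where the rank is at most `r`. -/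
theorem cnt_rank (h3 : SMinor) (r : ℕ) (p : Nat.Primes) {k : ℕ} (hk : k ≠ 0) :
    cnt (fun x : Fin (m + 1) → FF p k => (matAt T x).rank ≤ r) =
      1 + ((p : ℤ) ^ k - 1) * projCount (minors T r) 1 p k := by
  rw [proj_formula (minors_hom T r) 1 p hk, if_neg (by
    rw [Nat.dvd_one]
    exact p.2.one_lt.ne'), cnt_ne (fun x : Fin (m + 1) → FF p k => (matAt T x).rank ≤ r) 0 (by
      rw [matAt_zero, Matrix.rank_zero]
      exact Nat.zero_le _)]
  congr 1
  apply cnt_congr
  intro v
  rw [minors_iff T h3]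

/-- The double count. -/
theorem cnt_flat (h3 : SMinor) (h4 : SKer) (p : Nat.Primes) {k : ℕ} (hk : k ≠ 0) :
    cnt (fun z : (Fin (m + 1) → FF p k) × (Fin b → FF p k) =>
      ∀ j, ∑ i, ∑ l, (T i j l : FF p k) * z.1 i * z.2 l = 0) =
    ((p : ℤ) ^ k) ^ (m + 1) + ((p : ℤ) ^ k - 1) * ∑ r ∈ Finset.range b,
      ((p : ℤ) ^ k) ^ (b - 1 - r) *
        (1 + ((p : ℤ) ^ k - 1) * projCount (minors T r) 1 p k) := by
  classical
  have := Fintype.ofFinite (FF p k)
  have hq : (Nat.card (FF p k) : ℤ) = (p : ℤ) ^ k := card_FF p hk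
  have hq0 : ((p : ℤ) ^ k) ≠ 0 := pow_ne_zero _ (by exact_mod_cast p.2.pos.ne')
  rw [cnt_prod]
  have e1 : ∀ x : Fin (m + 1) → FF p k,
      cnt (fun z : Fin b → FF p k => ∀ j, ∑ i, ∑ l, (T i j l : FF p k) * x i * z l = 0) =
      1 + ((p : ℤ) ^ k - 1) * ∑ r ∈ Finset.range b, ((p : ℤ) ^ k) ^ (b - 1 - r) *
        (if (matAt T x).rank ≤ r then 1 else 0) := by
    intro x
    have hr : (matAt T x).rank ≤ b := Matrix.rank_le_width _
    rw [← geom _ b _ hr]
    have e2 : cnt (fun z : Fin b → FF p k =>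
        ∀ j, ∑ i, ∑ l, (T i j l : FF p k) * x i * z l = 0) =
        cnt (fun z : Fin b → FF p k => (matAt T x).mulVec z = 0) := by
      apply cnt_congr
      intro z
      rw [funext_iff]
      apply forall_congr'
      intro j
      have : (matAt T x).mulVec z j = ∑ i, ∑ l, (T i j l : FF p k) * x i * z l := by
        simp only [Matrix.mulVec, dotProduct, matAt, Matrix.of_apply, Finset.sum_mul]
        rw [Finset.sum_comm]
      rw [this]
      rfl
    rw [e2]
    have e3 := h4 (FF p k) a b (matAt T x)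
    rw [hq] at e3
    have e4 : ((p : ℤ) ^ k) ^ b = ((p : ℤ) ^ k) ^ (matAt T x).rank *
        ((p : ℤ) ^ k) ^ (b - (matAt T x).rank) := by
      rw [← pow_add]
      congr 1
      omega
    rw [e4] at e3
    exact mul_left_cancel₀ (pow_ne_zero _ hq0) e3
  rw [Finset.sum_congr rfl fun x _ => e1 x, Finset.sum_add_distrib, ← Finset.mul_sum,
    Finset.sum_comm]
  have e5 : ∑ _x : Fin (m + 1) → FF p k, (1 : ℤ) = ((p : ℤ) ^ k) ^ (m + 1) := by
    rw [Finset.sum_const, Finset.card_univ, ← Nat.card_eq_fintype_card, nsmul_eq_mul, mul_one,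
      card_fun, hq, Fintype.card_fin]
  rw [e5]
  congr 2
  refine Finset.sum_congr rfl fun r _ => ?_
  rw [← Finset.mul_sum, ← cnt_sum, cnt_rank T h3 r p hk]

/-- One point. -/
theorem one_mem {C : Counts → Prop} (hC : Closed C) (h : ProjIn C m) : C (fun _ _ => 1) := by
  classical
  have hF : ∀ f ∈ (Finset.univ.image fun i : Fin m =>
      (MvPolynomial.X i.succ : MvPolynomial (Fin (m + 1)) ℤ)), ∃ d : ℕ, f.IsHomogeneous d := by
    intro f hf
    obtain ⟨i, -, rfl⟩ := Finset.mem_image.1 hf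
    exact ⟨1, MvPolynomial.isHomogeneous_X _ _⟩
  refine hC.congr (fun p k hk => ?_) (h _ hF 1 one_pos)
  have h1 := proj_formula hF 1 p hk
  rw [if_neg (by
    rw [Nat.dvd_one]
    exact p.2.one_lt.ne')] at h1
  have h2 := cnt_ne (fun v : Fin (m + 1) → FF p k => ∀ f ∈ (Finset.univ.image fun i : Fin m =>
      (MvPolynomial.X i.succ : MvPolynomial (Fin (m + 1)) ℤ)), MvPolynomial.aeval v f = 0) 0
      (by
        intro f hf
        obtain ⟨i, -, rfl⟩ := Finset.mem_image.1 hf
        simp)
  have h3 : cnt (fun v : Fin (m + 1) → FF p k => ∀ f ∈ (Finset.univ.image fun i : Fin m =>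
      (MvPolynomial.X i.succ : MvPolynomial (Fin (m + 1)) ℤ)), MvPolynomial.aeval v f = 0) =
      (p : ℤ) ^ k := by
    rw [← card_FF p hk]
    unfold cnt
    congr 1
    refine Nat.card_congr
      { toFun := fun v => v.1 0
        invFun := fun c => ⟨Fin.cons c 0, ?_⟩
        left_inv := ?_
        right_inv := fun c => rfl }
    · intro f hf
      obtain ⟨i, -, rfl⟩ := Finset.mem_image.1 hf
      simp
    · rintro ⟨v, hv⟩
      apply Subtype.ext
      funext i
      refine Fin.cases rfl (fun i => ?_) i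
      have := hv (MvPolynomial.X i.succ) (Finset.mem_image_of_mem _ (Finset.mem_univ i))
      rw [MvPolynomial.aeval_X] at this
      simp [this]
  have h4 : (1 : ℤ) < (p : ℤ) ^ k := one_lt_pow₀ (by exact_mod_cast p.2.one_lt) hk
  have h5 : ((p : ℤ) ^ k - 1) ≠ 0 := by omega
  apply mul_left_cancel₀ h5
  rw [h1]
  linarith

end AB

theorem ab (h1 : SCone) (h2 : SFlat) (h3 : SMinor) (h4 : SKer) : SAB := by
  classical
  intro C hC m hP a b T _
  have hone : C (fun _ _ => 1) := AB.one_mem hC hP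
  have hzero : C (fun _ _ => 0) := hC.congr (fun _ _ _ => by simp) (AB.sub hC hone hone)
  have hpow : ∀ j : ℕ, C (fun p k => ((p : ℤ) ^ k) ^ j) := fun j =>
    hC.congr (fun p k _ => mul_one _) (AB.powShift hC hone j)
  -- the double count
  have hD : C (fun p k => ((p : ℤ) ^ k) ^ (m + 1) + ((p : ℤ) ^ k - 1) *
      ∑ r ∈ Finset.range b, ((p : ℤ) ^ k) ^ (b - 1 - r) *
        (1 + ((p : ℤ) ^ k - 1) * projCount (AB.minors T r) 1 p k)) := by
    refine hC.add (hpow _) (AB.mulSub hC (AB.sum hC _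
      (fun r p k => ((p : ℤ) ^ k) ^ (b - 1 - r) *
        (1 + ((p : ℤ) ^ k - 1) * projCount (AB.minors T r) 1 p k)) hzero fun r _ => ?_))
    exact AB.powShift hC (hC.add hone (AB.mulSub hC (hP _ (AB.minors_hom T r) 1 one_pos))) _
  have hA : C (fun p k => cnt (fun z : (Fin a → FF p k) × (Fin b → FF p k) =>
      ∀ i, ∑ j, ∑ l, (T i j l : FF p k) * z.1 j * z.2 l = 0)) := by
    refine AB.powUnshift hC (m + 1) (hC.congr (fun p k hk => ?_) (AB.powShift hC hD a))
    have e1 := h2 (FF p k) (m + 1) a b (fun i j l => (T i j l : FF p k))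
    rw [card_FF p hk, AB.cnt_flat T h3 h4 p hk] at e1
    exact e1.symm
  refine hC.div (hC.div ?_)
  refine hC.congr (fun p k hk => ?_)
    (hC.add (AB.sub hC (AB.sub hC hA (hpow a)) (hpow b)) hone)
  have e2 := h1 (FF p k) (m + 1) a b (fun i j l => (T i j l : FF p k))
  rw [card_FF p hk] at e2
  exact e2.symm

end Pool.Agent.H90.HW
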