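import Pool.Agent.H90.HW.Stmts

/-! # HW, module Flat -/

namespace Pool.Agent.H90.HW

open Pool.Agent.H73.Zeta

theorem flat : SFlat := by
  intro K _ _ n a b T
  classical
  have hq : (1 : ℤ) < Nat.card K := by exact_mod_cast Finite.one_lt_card
  have e1 := cnt_mult (K := K) (ι := Fin n) (W := (Fin a → K) × (Fin b → K))
    (fun i w => ∑ j, ∑ l, T i j l * w.1 j * w.2 l)
  have e2 := cnt_mult (K := K) (ι := Fin a) (W := (Fin n → K) × (Fin b → K))
    (fun j w => ∑ i, ∑ l, T i j l * w.1 i * w.2 l)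
  let e : (Fin n → K) × ((Fin a → K) × (Fin b → K)) ≃ (Fin a → K) × ((Fin n → K) × (Fin b → K)) :=
    { toFun := fun z => (z.2.1, (z.1, z.2.2))
      invFun := fun z => (z.2.1, (z.1, z.2.2))
      left_inv := fun _ => rfl
      right_inv := fun _ => rfl }
  have e3 := cnt_equiv e (fun z => ∑ j, z.1 j * ∑ i, ∑ l, T i j l * z.2.1 i * z.2.2 l = 0)
  have e4 : cnt (fun z : (Fin n → K) × ((Fin a → K) × (Fin b → K)) =>
      ∑ i, z.1 i * ∑ j, ∑ l, T i j l * z.2.1 j * z.2.2 l = 0) =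
      cnt (fun z : (Fin n → K) × ((Fin a → K) × (Fin b → K)) =>
        ∑ j, (e z).1 j * ∑ i, ∑ l, T i j l * (e z).2.1 i * (e z).2.2 l = 0) := by
    apply cnt_congr
    intro z
    have : ∑ i, z.1 i * ∑ j, ∑ l, T i j l * z.2.1 j * z.2.2 l =
        ∑ j, (e z).1 j * ∑ i, ∑ l, T i j l * (e z).2.1 i * (e z).2.2 l := by
      simp only [Finset.mul_sum]
      rw [Finset.sum_comm]
      refine Finset.sum_congr rfl fun j _ => Finset.sum_congr rfl fun i _ =>
        Finset.sum_congr rfl fun l _ => ?_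
      simp only [e, Equiv.coe_fn_mk]
      ring
    rw [this]
  rw [e3] at e4
  rw [e4] at e1
  rw [e1] at e2
  have c1 : (Nat.card ((Fin a → K) × (Fin b → K)) : ℤ) =
      (Nat.card K : ℤ) ^ a * (Nat.card K : ℤ) ^ b := by
    rw [Nat.card_prod]
    push_cast
    rw [card_fun, card_fun, Fintype.card_fin, Fintype.card_fin]
  have c2 : (Nat.card ((Fin n → K) × (Fin b → K)) : ℤ) =
      (Nat.card K : ℤ) ^ n * (Nat.card K : ℤ) ^ b := by
    rw [Nat.card_prod]
    push_cast
    rw [card_fun, card_fun, Fintype.card_fin, Fintype.card_fin]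
  rw [c1, c2, Fintype.card_fin, Fintype.card_fin] at e2
  have h0 : ((Nat.card K : ℤ) - 1) ≠ 0 := by omega
  apply mul_left_cancel₀ h0
  linarith

end Pool.Agent.H90.HW
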